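import Pool.Agent.Helper90.UN.Defs

/-!
PROJECT UN (MP_d3128a_ag), captain helper90. THEOREM (UniformSystems): let `n ≥ 10`. For every `m` there is
at most one degree `d` for which it is not proved here that the system `L(d; m^n)` of the plane curves of
degree `d` with `n` general points of multiplicity `m` is non-special.

THE PROOF. Squares `n`: SquareClasses and Nagata. Let `n` be no square, `r = √n`, `β = 3 r`, `rho = 3 r - 9`,
`κ = r/3`, `t = d/3`. `d ≤ r m`: empty (Nagata). `d + 3 ≥ r (m+1)`: regular (RegularRange). Let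
`r m < d < r (m + 1) - 3`. `T` = lattice points of the triangle `InT d rho` of the project NAGATA
(`|T| = C(d+2,2)`), `N_s` = number of rows `n = X` with at least `s` points of `T`. Main inequality (as in
Nag/Main1.lean, but now the points are `(l + 1, y l)` with rational `y l`): `IndepY S`, `S ⊆ T`, gives
`dim L + |S| ≤ |T|`. Put `y l = 1 + ε` for `p` points (the movers), `y l = 1` for the others. COMPRESSION
(S_CMP, `ε → 0`): independence follows from the independence of the compressed problem: rows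
`R i = lnv S (i + 1)`, points `(l + 1, 0)` and `(l + 1, 1)`. By Descartes (S_MOV) this holds if
`N_{i+1} ≤ n (m - i) - p` for `i < m` and `N_{m+1} ≤ p m`. So `L` is empty if for some `p` these
inequalities hold and `N_{m+2} = 0`, and regular if for some `p` the opposite inequalities hold. COUNT
(S_ROW, S_TEL, S_BND): `|N_s - (r d - n (s - 1/2) + 3 r/2)| < (r + 1)/2` for `1 ≤ s ≤ m`. Let
`δ_d = r (d + 3/2) - n (m + 1/2)`, `e_s = N_s - n (m + 1 - s)`, so `|e_s - δ_d| < (r + 1)/2`. `E_d = N_{m+1}` is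
monotone in `d`, and `< n` (S_EMO). Now let `d < d'` be in the window, `p' = ⌈E_d/m⌉`, `p = ⌊E_{d'}/m⌋`. If `d` is
not empty then some `e_s(d) ≥ 1 - p'`, and if `d'` is not regular then some `e_s(d') ≤ - p - 1`, so
`r ≤ δ_{d'} - δ_d < (r + 1) - 2 + p' - p ≤ r`, a contradiction. So at most one `d` is undecided.

Deliver `Pool/Agent/<Seat>/UN/XXX.lean`, namespace `Pool.Agent.<Seat>.UN.XXX`,
`theorem t (h1 : S_AAA) ... : S_XXX`.
-/

set_option autoImplicit false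

noncomputable section

namespace Pool.Agent.Helper90.UN

open Module Pool.Agent.Helper97 Pool.Agent.Helper97.Nag

open Pool.Agent.Helper97.Tate (OO KK SS cf IsTh qe Th iO ser evx evK th Van Fm)

/-- BLKY (helper90). As S_BLKX, with the rational ordinates `y l`. -/
def S_BLKY : Prop := ∀ (F : Type) [Field F] [CharZero F] (d b : ℕ) (M : Fin b → ℕ) (y : Fin b → ℚ)
  (rho : ℝ) (x : Fˣ),
  GenX x → ∀ x' : Fin b → Fˣ, (∀ l, ((x' l : Fˣ) : F) = (((l : ℕ) : F) + 1) * (x : F)) →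
  ∀ C : Finset (ℕ × ℤ), (∀ c ∈ C, InT d rho c.1 c.2) →
    IndepY M y (C.image fun c => ((c.1 : ℤ), c.2)) →
  ∀ a : ℕ × ℤ → KK F, (∀ (l : Fin b) (α β : ℕ), α + β < M l →
    ∑ c ∈ C, a c * (((y l : ℚ) : KK F) ^ c.1 * (c.1.choose β : KK F) *
      PowerSeries.coeff α (SEX d (x' l) c.1 (c.2 % ((3 * (d - 3 * c.1) : ℕ) : ℤ)).toNat)) = 0) →
    ∀ c ∈ C, a c = 0

/-- CMP (2 h). COMPRESSION.
PROOF. (1) For a row `X` let `J_X = {j : (j, X) ∈ S}`, `r_X = |J_X|`. The matrix `C(j, i)`, `j ∈ J_X`, `i < r_X`, is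
invertible (the `C(·, i)`, `i < r`, span the polynomials of degree `< r`; a polynomial of degree `< r` with `r`
zeros vanishes): there are rational `g X i' j` (`i' < r_X`, `j ∈ J_X`) with
`∑_{j ∈ J_X} g X i' j C(j, i) = δ_{i i'}` for all `i < r_X`. Let `λ X i' i = ∑_{j ∈ J_X} g X i' j C(j, i)` for all `i`; so
`λ X i' i' = 1` and `λ X i' i = 0` for `i < i'` (as `i' < r_X`), and for `i ≤ m`: `λ X i' i ≠ δ` only if `i > i'`.
(2) Let `I = {(i', X) : i' ≤ m, X ∈ R i'}` (then `i' < r_X`, as `X ∈ lnv S (i'+1)`), `V = ℚ^I`. For `c ∈ V` and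
`ε ≠ 0` let `a (j, X) = ∑_{i'} c (i', X) ε^(-i') g X i' j`. Conditions of the point `l` for `a`, times `ε^β`:
static (`y l = 1`): `∑_X C(X,α) (l+1)^X ∑_{i'} c (i', X) ε^(β-i') λ X i' β`; mover (`y l = 1 + ε`), by
`C(j,β) (1+ε)^j = (1+ε)^β ∑_i C(j, i) C(i, β) ε^(i-β)`:
`(1+ε)^β ∑_X C(X,α) (l+1)^X ∑_i C(i,β) ∑_{i'} c (i', X) ε^(i-i') λ X i' i`. In both only exponents `≥ 0` of `ε`
occur (`λ X i' i = 0` for `i < i'`), so they are given by a matrix `B(ε)` with polynomial entries in `ε`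
(rows `(l, α, β)`, `α + β < m`, columns `I`; drop the factor `(1+ε)^β`), and `B(0)` is the matrix of the
compressed problem `CompTriv b p m R`: only the terms `i = i'` survive. (For `i > m` in the mover sum
`i - i' > 0`.)
(3) `B(0)` is injective, so it has a left inverse `L` (over ℚ). `det (L B(ε))` is a polynomial in `ε` with value
`1` at `0`, so there is a rational `ε ≠ 0` with `det (L B(ε)) ≠ 0` (infinitely many choices; choose also
`ε ≠ -1`), and `B(ε)` is injective.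
(4) So the `|I| = ∑_{i ≤ m} |R i|` vectors `a` (images of the unit vectors of `V`) of `ℚ^S` have linearly
independent images under the matrix `A` of the conditions at `(l + 1, y l)`; so the columns of `A` span a
space of dimension `≥ |I|`, and there are `|I|` linearly independent columns `S' ⊆ S`
(`exists_linearIndependent'`): `IndepY`. -/
def S_CMP : Prop := ∀ (b p m : ℕ) (S : Finset (ℤ × ℤ)) (R : ℕ → Finset ℤ),
  (∀ q ∈ S, 0 ≤ q.1) → (∀ i, i ≤ m → R i ⊆ lnv S (i + 1)) → CompTriv b p m R →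
  ∃ S' ⊆ S, S'.card = ∑ i ∈ Finset.range (m + 1), (R i).card ∧
    ∃ y : Fin b → ℚ, IndepY (fun _ => m) y S'

/-- MOV (helper98). THE MOVER LEMMA.
PROOF. Let `g_i(x) = ∑_{X ∈ R i} a i X x^X`. At the static points `g_i` vanishes to order `m - i`. Induction on
`c = 0..m`: (I_c) `g_{m-1} = ... = g_{m-c} = 0` and every `g_i`, `i ≤ m`, vanishes to order `≥ c` at the `p` movers.
Step (`c < m`): the row `i = m - c - 1` has `(b - p)(c + 1) + p c = b (c + 1) - p ≥ |R i|` positive zeros, so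
`g_i = 0` (Descartes in `x`, see (0) of S_HOR). For a mover `x_j` the polynomial
`A(z) = ∑_i z^i g_i^{[c]}(x_j)` has a zero of order `m - c` at `z = 1` and at most `m - c` terms
(`i = 0..m-c-2` and `i = m`), so `A = 0` (Descartes in `z`): (I_{c+1}). At `c = m`: `g_0 = ... = g_{m-1} = 0` and
`g_m` has `p m ≥ |R m|` zeros, so `g_m = 0`. -/
def S_MOV : Prop := ∀ (b p m : ℕ) (R : ℕ → Finset ℤ), p ≤ b →
  (∀ i, i < m → (R i).card + p ≤ b * (m - i)) → (R m).card ≤ p * m → CompTriv b p m R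

/-- ROW (1.5 h). THE ROWS OF THE TRIANGLE. `β = rho + 9`, `t = d/3`.
PROOF. Let `J(X) = {j : InT d rho j X}`. The apex (`3 j = d`, `X = 0`) gives one row with one point if `3 ∣ d`; the
other rows have `X > 0`. For `i` in the index set (`β (s - 1) < 9 (t - i)`, so `t - i > s - 1`) let `B_i` be the
set of the integers `X` with `max (β (t - s - i)) (rho (t - i)) < X < β (t - s + 1 - i)`. Claim: `X ≠ 0` has
`|J(X)| ≥ s` if and only if `X` is in some `B_i`. If `X ∈ B_i` then `i, i+1, ..., i+s-1 ∈ J(X)`: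
`rho (t - j) ≤ rho (t - i) < X < β (t - s + 1 - i) ≤ β (t - j)`. Conversely let `J = max J(X)`, `i = J - s + 1 ≥
min J(X) ≥ 0`. Then `rho (t - i) ≤ rho (t - min J(X)) < X < β (t - J) = β (t - s + 1 - i)` (so `i` is in the
index set), and `X > β (t - J - 1)`: if `t - J - 1 ≤ 0` clear; otherwise `J + 1 ∉ J(X)` gives
`X ≥ β (t - J - 1)` (as `rho (t - J - 1) < X`), and `β (t - J - 1)` is irrational. The `B_i` are disjoint:
`B_i` is contained in the interval from `β (t - s - i)` to `β (t - s + 1 - i)`. `|B_i| = ⌊b⌋ - ⌊a⌋` for its ends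
`a < b`, because `b = β (t - s + 1 - i)` is irrational (`t - s + 1 - i` is a positive rational). For `s ≥ 2` the
apex row does not count, `0` is not in any `B_i` (`rho (t - i) > 0`). -/
def S_ROW : Prop := ∀ (d s : ℕ) (rho : ℝ) (S : Finset (ℤ × ℤ)), 0 < rho → Irrational rho →
  IsT d rho S → 1 ≤ s →
  ((lnv S s).card : ℤ) = (if s = 1 ∧ 3 ∣ d then 1 else 0) +
    ∑ i ∈ (Finset.range (d + 1)).filter
        (fun i : ℕ => (rho + 9) * ((s : ℝ) - 1) < 9 * ((d : ℝ) / 3 - i)),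
      (⌊(rho + 9) * ((d : ℝ) / 3 - s + 1 - i)⌋ -
        ⌊max ((rho + 9) * ((d : ℝ) / 3 - s - i)) (rho * ((d : ℝ) / 3 - i))⌋)

/-- EMO (1.2 h, hypothesis S_ROW). THE TOP ROW.
PROOF. `r = √n`, `κ = r/3`, `β = 3 r`, `rho = β - 9 > 0` irrational, `t = d/3`, and `κ m < t`, `t + 1 < κ (m + 1)`
(`n (m+1)²` is no square; `3 r ≥ 3 √10 > 9`). (a) ROW with `s = m + 2`: the index set is empty, as
`9 t < β (m + 1)`. (b), (c): ROW with `s = m + 1 ≥ 2`: `N = ∑ (⌊b_i⌋ - ⌊a_i⌋)` over the `i ≥ 0` with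
`9 (t - i) > β m`, `b_i = β (t - m - i)`, `a_i = rho (t - i)` (the maximum is `rho (t - i)` because
`9 (t - i) < β (m + 1)`), `b_i - a_i = 9 (t - i) - β m = 3 d - 9 i - β m > 0`. (b) Each term is
`< b_i - a_i + 1 ≤ 9 z + 1`, `z = t - κ m < κ - 1`, the number of terms is `< z + 1 < κ`, so
`N < κ (9 (κ - 1) + 1) = n - 8 κ < n`. (c) For `d < d'` every `i` of the index set of `d` is in that of `d'`,
`b_i' - a_i' ≥ b_i - a_i + 3`, so `⌊b_i'⌋ - ⌊a_i'⌋ > b_i' - a_i' - 1 ≥ b_i - a_i + 2 > ⌊b_i⌋ - ⌊a_i⌋`; the other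
terms of `d'` are `≥ 0`. -/
def S_EMO : Prop := ∀ (n m d : ℕ) (S : Finset (ℤ × ℤ)), 10 ≤ n → ¬ IsSquare n → 1 ≤ m →
  n * m ^ 2 < d ^ 2 → (d + 3) ^ 2 < n * (m + 1) ^ 2 → IsT d (3 * √(n : ℝ) - 9) S →
  (lnv S (m + 2)).card = 0 ∧ (lnv S (m + 1)).card < n ∧
  ∀ (d' : ℕ) (S' : Finset (ℤ × ℤ)), d ≤ d' → (d' + 3) ^ 2 < n * (m + 1) ^ 2 →
    IsT d' (3 * √(n : ℝ) - 9) S' → (lnv S (m + 1)).card ≤ (lnv S' (m + 1)).card

/-- TEL (1.5 h, hypothesis S_ROW). THE OTHER ROWS, telescoping.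
PROOF. `r = √n`, `κ = r/3`, `β = 3 r = 9 κ`, `rho = β - 9`, `t = d/3`, `κ s < t`. Let `I = ⌈t - κ s⌉ ≥ 1`,
`ε = κ s - t + I`, in `(0,1)` (`κ s` is irrational), `k = ⌈κ - ε⌉ ≥ 1` (`κ > 1`). In ROW the `i < I` have
`t - i > κ s`, so the maximum is `β (t - s - i)` and their sum is `⌊β (t - s + 1)⌋ - ⌊β (t - s + 1 - I)⌋`; the
`i = I + i'` have `t - i = κ s - ε - i' < κ s`, the maximum is `rho (t - i)`, and `i` is in the index set if and
only if `i' < κ - ε`, i.e. `i' < k`. Hence, with `A = 1` if `s = 1` and `3 ∣ d`, `A = 0` otherwise,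
`N = A + ⌊β (t - s + 1)⌋ + ∑_{1 ≤ i' < k} ⌊β (κ s - ε - i' - s + 1)⌋ - ∑_{i' < k} ⌊rho (κ s - ε - i')⌋`.
Put `⌊x⌋ = x - fract x`, `θ = fract (β (t - s + 1))`. Main terms: `β (x - s + 1) - rho x = 9 x - β (s - 1)` is
`9 (κ - ε - i')` for `x = κ s - ε - i'`, so the main terms are
`β (t - s + 1) - β (κ s - ε - s + 1) + 9 ∑_{i' < k} (κ - ε - i') = r d - n s + β ε + 9 (k (κ - ε) - k (k-1)/2)`
which equals `r d - n (s - 1/2) + 3 r/2 + 9/2 (f (1 - f) - ε (1 - ε))`, `f = k - κ + ε` (`9 κ² = n`).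
Fractional parts: `β s = 9 κ s = 9 ε + 3 d - 9 I` and `β κ s = n s`, so
`rho (κ s - ε - i') = n s - 9 ε - 3 d + 9 I - β (ε + i') + 9 ε + 9 i'` is congruent to `-β (ε + i')` mod `1`, and
`β (κ s - ε - i' - s + 1) = n s - β s - β (ε + i' - 1)` is congruent to `-β (ε + (i' - 1)) - 9 ε`. They are
not integers, because `κ s - ε - i' = t - I - i'` is a rational number `> κ (s - 1) ≥ s - 1 ≥ 0` for `i' < k`,
so that `rho (t - I - i')` and `β (t - I - i' - s + 1)` are irrational. If `A = 1` then `s = 1` and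
`κ - ε = t - I` is an integer, so `k = κ - ε`. -/
def S_TEL : Prop := ∀ (n d s : ℕ) (S : Finset (ℤ × ℤ)), 10 ≤ n → ¬ IsSquare n → 1 ≤ s →
  n * s ^ 2 < d ^ 2 → IsT d (3 * √(n : ℝ) - 9) S →
  ∃ (k : ℕ) (A θ ε : ℝ), IsW √(n : ℝ) k A θ ε ∧
    ((lnv S s).card : ℝ) = √(n : ℝ) * d - n * (s - 1 / 2) + 3 * √(n : ℝ) / 2 + WW √(n : ℝ) k A θ ε

/-- BND (1.2 h). THE DEVIATION. `r = √n`.
PROOF. `κ = r/3 > 1`, not an integer (`r` is irrational), `β = 9 κ`, `K = ⌈κ⌉ ≥ 2`, `g = κ - K + 1`, in `(0,1)`,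
`f = k - κ + ε`, `W = A + 9/2 (f (1-f) - ε (1-ε)) - θ + Σ₁ - Σ₂`, where `0 ≤ Σ₁ < k` (`k ≥ 1`), `0 ≤ Σ₂ ≤ k - 1`.
Case 1: `ε < g`. Then `k = K`, `A = 0`, `f = 1 - (g - ε)`, `f (1-f) - ε (1-ε) = (1 - g)(g - 2 ε)`, absolute value
`≤ g (1-g)`. So `|W| < 9/2 g (1-g) + K`. Case 2: `ε ≥ g`. Then `k = K - 1`, `f = ε - g`,
`f (1-f) - ε (1-ε) = g (2 ε - 1 - g)`, absolute value `≤ g (1-g)`, and `A ≤ 1`. So again
`|W| < 9/2 g (1-g) + K`. Claim `(r+1)/2 = (3 κ + 1)/2 = (3 (K - 1 + g) + 1)/2`. If `K ≥ 3`: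
`9/2 g (1-g) + K ≤ (3 (K-1+g) + 1)/2` because
`3 g - 9/2 g² = 1/2 - 9/2 (g - 1/3)² ≤ 1/2 ≤ K/2 - 1`. Let `K = 2`: `κ = 1 + g`, `n = 9 (1+g)²`,
`(r+1)/2 = 2 + 3 g/2`. Case 2: `k = 1`. If `A = 0`, `|W| < 9/2 g (1-g) + 1 ≤ 2 + 3 g/2`. If `A = 1`: `ε = g`,
`W = 1 - 9/2 g (1-g) - θ + Σ₁`, so `-9/8 < W < 2`. Case 1: `k = 2`, `ε < g`, put `η = g - ε`. As
`β (1 + g) = n` and `(β + 9) g = n - 9`: `fract(-β (ε+1)) = fract(β η)`, `fract(-β ε - 9 ε) = fract((β+9) η)`.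
Lower bound: `fract((β+9) η) ≤ fract(β η) + fract(9 η)` (Int.fract_add_le), and
`9 (1-g) η - fract(9 η) = (1-g) ⌊9 η⌋ - g fract(9 η) > -g`, so
`W > 9/2 (1-g)(2 η - g) - 1 - fract(9 η) > -9/2 g (1-g) - g - 1 ≥ -2 - 3 g/2` (`4 g - 9/2 g² ≤ 8/9`). Upper
bound: `fract(-x) = 1 - fract x` for non-integral `x`; `Σ₁ - Σ₂ ≤ (1 - fract(β ε)) + 1 - (1 -
fract((β+9) ε)) ≤ 1 - fract(β ε) + fract(β ε) + fract(9 ε) = 1 + fract(9 ε)` (for `Σ₂` the argument is not an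
integer: hypothesis), so `W ≤ 9/2 (1-g)(g - 2 ε) + 1 + fract(9 ε) = 9/2 g (1-g) + 1 - (9 (1-g) ε - fract(9 ε))
< 9/2 g (1-g) + 1 + g ≤ 2 + 3 g/2`. -/
def S_BND : Prop := ∀ (n k : ℕ) (A θ ε : ℝ), 10 ≤ n → ¬ IsSquare n → IsW √(n : ℝ) k A θ ε →
  |WW √(n : ℝ) k A θ ε| < (√(n : ℝ) + 1) / 2

/-- SUM (0.4 h). PROOF. The number of points of a row `X` of `S` is the number of the `s` with `1 ≤ s ≤ m + 1`
and `X ∈ lnv S s` (no row has `m + 2` points); sum over the rows. -/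
def S_SUM : Prop := ∀ (m : ℕ) (S : Finset (ℤ × ℤ)), lnv S (m + 2) = ∅ →
  ∑ i ∈ Finset.range (m + 1), (lnv S (i + 1)).card = S.card

/-- SQC (1 h). THE SQUARE CASE. PROOF. If `d ≤ k m`, `m ≥ 1`: `nagataC nGoals`
(Helper97/Nag/All1.lean, Main1.lean) with all multiplicities equal to `m`, `arith1` of Nag/Final.lean.
`d ≥ k m`: `Pool.Agent.Helper66.SB.final` with `r = 0`, `u = k²`, `x = 0`, `δ = d - k m`, all `n l = m` (compare
`Results/MP_d3128a_ag/SquareClasses.lean`), then transport along `Fin 0 ⊕ Fin u ⊕ Fin 0 ≃ Fin u`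
(`MvPolynomial.rename` of `G`). -/
def S_SQC : Prop := ∀ (n m d : ℕ), 10 ≤ n → IsSquare n → NonSp n m d

end Pool.Agent.Helper90.UN
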