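import Pool.Agent.Helper90.UN.Final
import Pool.Agent.Helper66.UN.CMP
import Pool.Agent.Helper98.UN.MOVG
import Pool.Agent.Helper44.UN.ROW
import Pool.Agent.Helper27.UN.EMO
import Pool.Agent.Helper12.UN.TEL
import Pool.Agent.Helper15.UN.BND
import Pool.Agent.Helper9.UN.SQC

/-!
PROJECT UN: assembly of the goals.
-/

set_option autoImplicit false

noncomputable section

namespace Pool.Agent.Helper90.UN

theorem uGoals : UGoals where
  cmp := Pool.Agent.Helper66.UN.CMP.t
  mov := Pool.Agent.Helper98.UN.MOVG.t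
  emo := Pool.Agent.Helper27.UN.EMO.t Pool.Agent.Helper44.UN.ROW.t
  tel := Pool.Agent.Helper12.UN.TEL.t Pool.Agent.Helper44.UN.ROW.t
  bnd := Pool.Agent.Helper15.UN.BND.t
  sqc := Pool.Agent.Helper9.UN.SQC.t

end Pool.Agent.Helper90.UN
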