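import Pool.Agent.Helper90.UN.Main
import Pool.Agent.Helper97.Nag.Final
import Pool.Agent.Helper80.UN.FIN

/-!
PROJECT UN: the final argument.
-/

set_option autoImplicit false

noncomputable section

namespace Pool.Agent.Helper90.UN

open Module Pool.Agent.Helper97 Pool.Agent.Helper97.Nag

open Pool.Agent.Helper97.Tate (OO KK SS cf IsTh qe Th iO ser evx evK th Van Fm tst nP Idx Indep IsCub)

/-- the goals used by the final argument -/
structure UGoals : Prop where
  cmp : S_CMP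
  mov : S_MOV
  emo : S_EMO
  tel : S_TEL
  bnd : S_BND
  sqc : S_SQC

/-- exact dimension from the upper bound -/
theorem nonSp_of (n m d N : ℕ)
    (h : ∃ (K : Type) (_ : Field K) (_ : CharZero K) (P : Fin n → Fin 3 → K),
      finrank K (Fm K d ⊓ ⨅ l, Van (P l) m : Submodule K (MvPolynomial (Fin 3) K)) ≤ N)
    (hN : (N : ℤ) ≤ max ((Nat.choose (d + 2) 2 : ℤ) - n * (Nat.choose (m + 1) 2 : ℤ)) 0) :
    NonSp n m d := by
  obtain ⟨G', hG0, hG⟩ := transC (n := n) (d := d) (m := fun _ => m) (N := N) nGoals.trk h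
  refine ⟨G' * ∏ i : Fin n, MvPolynomial.X (i, 2), ?_, ?_⟩
  · apply mul_ne_zero hG0
    rw [Finset.prod_ne_zero_iff]
    intro i _
    exact MvPolynomial.X_ne_zero _
  · intro P _ hP
    rw [map_mul, map_prod] at hP
    have hPA := left_ne_zero_of_mul hP
    have hP2 : ∀ i, P i 2 ≠ 0 := by
      intro i
      have h4 := (Finset.prod_ne_zero_iff.1 (right_ne_zero_of_mul hP)) i (Finset.mem_univ i)
      rwa [MvPolynomial.eval_X] at h4
    have hlow := Helper18.Shgh.lower_bound n (fun _ : ℕ => m) d P hP2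
    have hup := hG P hPA
    have hFS : Helper18.Shgh.FS n (fun _ : ℕ => m) d P =
        (MvPolynomial.homogeneousSubmodule (Fin 3) ℂ d ⊓
          ⨅ i : Fin n, Submodule.restrictScalars ℂ
            ((Ideal.span {g : MvPolynomial (Fin 3) ℂ |
                g.IsHomogeneous 1 ∧ MvPolynomial.eval (P i) g = 0}) ^ m
              : Ideal (MvPolynomial (Fin 3) ℂ))) := rfl
    rw [hFS, Finset.sum_const, Finset.card_univ, Fintype.card_fin, smul_eq_mul] at hlow
    have h1 : ((d + 2).choose 2 : ℤ) ≤ (finrank ℂ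
        (↥(MvPolynomial.homogeneousSubmodule (Fin 3) ℂ d ⊓
          ⨅ i : Fin n, Submodule.restrictScalars ℂ
            ((Ideal.span {g : MvPolynomial (Fin 3) ℂ |
                g.IsHomogeneous 1 ∧ MvPolynomial.eval (P i) g = 0}) ^ m
              : Ideal (MvPolynomial (Fin 3) ℂ)))) : ℤ) + n * ((m + 1).choose 2 : ℤ) := by
      exact_mod_cast hlow
    have h2 : (finrank ℂ
        (↥(MvPolynomial.homogeneousSubmodule (Fin 3) ℂ d ⊓
          ⨅ i : Fin n, Submodule.restrictScalars ℂ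
            ((Ideal.span {g : MvPolynomial (Fin 3) ℂ |
                g.IsHomogeneous 1 ∧ MvPolynomial.eval (P i) g = 0}) ^ m
              : Ideal (MvPolynomial (Fin 3) ℂ)))) : ℤ) ≤ N := by exact_mod_cast hup
    apply le_antisymm (h2.trans hN)
    apply max_le
    · linarith
    · positivity

/-- the triangle as a finite set -/
theorem exT (d : ℕ) (rho : ℝ) (h : ∀ j : ℕ, 3 * j < d → ∀ n : ℤ, rho * ((d : ℝ) / 3 - j) ≠ n) :
    ∃ S : Finset (ℤ × ℤ), IsT d rho S ∧ S.card = (d + 2).choose 2 := by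
  obtain ⟨⟨C, hC, hcard⟩, hsum⟩ := nGoals.cbt d rho h
  refine ⟨C.image fun c => ((c.1 : ℤ), c.2), ?_, ?_⟩
  · intro q
    rw [Finset.mem_image]
    constructor
    · rintro ⟨c, hc, rfl⟩
      exact ⟨c.1, rfl, (hC c).1 hc⟩
    · rintro ⟨j, hj, hj2⟩
      refine ⟨(j, q.2), (hC _).2 hj2, ?_⟩
      rw [← hj]
  · rw [Finset.card_image_of_injective, hcard, hsum]
    rintro ⟨j, n⟩ ⟨j', n'⟩ h
    simp only [Prod.mk.injEq, Nat.cast_inj] at h
    rw [h.1, h.2]

/-- the inequality for a subset of the triangle -/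
theorem clus (n m d : ℕ) (rho : ℝ)
    (hrho : ∀ j : ℕ, 3 * j < d → ∀ n : ℤ, rho * ((d : ℝ) / 3 - j) ≠ n)
    (S : Finset (ℤ × ℤ)) (hS : IsT d rho S) (S' : Finset (ℤ × ℤ)) (hS' : S' ⊆ S)
    (y : Fin n → ℚ) (hI : IndepY (fun _ : Fin n => m) y S') :
    ∃ (K : Type) (_ : Field K) (_ : CharZero K) (P : Fin n → Fin 3 → K),
      finrank K (Fm K d ⊓ ⨅ l, Van (P l) m : Submodule K (MvPolynomial (Fin 3) K)) + S'.card ≤
        (d + 2).choose 2 := by
  obtain ⟨-, hsum⟩ := nGoals.cbt d rho hrho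
  set C : Finset (ℕ × ℤ) := S'.image fun q => (q.1.toNat, q.2) with hCdef
  have hback : ∀ q ∈ S', ((q.1.toNat : ℤ), q.2) = q := by
    intro q hq
    obtain ⟨j, hj, -⟩ := (hS q).1 (hS' hq)
    have : ((q.1.toNat : ℤ)) = q.1 := by rw [hj]; simp
    rw [this]
  have hC : ∀ c ∈ C, InT d rho c.1 c.2 := by
    intro c hc
    obtain ⟨q, hq, rfl⟩ := Finset.mem_image.1 hc
    obtain ⟨j, hj, hj3⟩ := (hS q).1 (hS' hq)
    have e : q.1.toNat = j := by rw [hj]; simp
    simp only [e]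
    exact hj3
  have hCS : (C.image fun c => ((c.1 : ℤ), c.2)) = S' := by
    rw [hCdef, Finset.image_image]
    ext q
    rw [Finset.mem_image]
    constructor
    · rintro ⟨q', hq', rfl⟩
      simp only [Function.comp]
      rw [hback q' hq']
      exact hq'
    · intro hq
      exact ⟨q, hq, hback q hq⟩
  have hCc : C.card = S'.card := by
    rw [hCdef]
    apply Finset.card_image_of_injOn
    intro q hq q' hq' hqq
    simp only [Prod.mk.injEq] at hqq
    have e1 := hback q hq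
    have e2 := hback q' hq'
    rw [← e1, ← e2, hqq.1, hqq.2]
  obtain ⟨K, i1, i2, P, hP⟩ := main2 d n (fun _ => m) y rho C hC (by rw [hCS]; exact hI)
  rw [hsum, hCc] at hP
  exact ⟨K, i1, i2, P, hP⟩

/-- the case without multiplicities -/
theorem nonSp_zero (n d : ℕ) : NonSp n 0 d := by
  have h10 : ¬ IsSquare (10 : ℕ) := by
    rintro ⟨k, hk⟩
    have h1 : k ≤ 3 := by
      by_contra hcon
      have h2 : 4 ≤ k := by omega
      have h3 := Nat.mul_le_mul h2 h2
      omega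
    interval_cases k <;> omega
  have ht := Pool.Agent.Helper80.UN.FIN.noTie 10 d _ h10 rfl
  obtain ⟨S, hS, -⟩ := exT d _ ht
  obtain ⟨K, i1, i2, P, hP⟩ := clus n 0 d _ ht S hS ∅ (Finset.empty_subset _) (fun _ => 1)
    (by
      intro a _ q hq
      exact absurd hq (Finset.notMem_empty _))
  apply nonSp_of n 0 d ((d + 2).choose 2)
  · rw [Finset.card_empty, add_zero] at hP
    exact ⟨K, i1, i2, P, hP⟩
  · simp

section

variable (G : UGoals) (n m d : ℕ) (rho : ℝ)
  (hrho : ∀ j : ℕ, 3 * j < d → ∀ n : ℤ, rho * ((d : ℝ) / 3 - j) ≠ n)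
  (S : Finset (ℤ × ℤ)) (hS : IsT d rho S) (hcard : S.card = (d + 2).choose 2) (p : ℕ)

include G hrho hS in
/-- the inequality with movers -/
theorem rows (hp : p ≤ n) (R : ℕ → Finset ℤ) (hR : ∀ i, i ≤ m → R i ⊆ lnv S (i + 1))
    (h1 : ∀ i, i < m → (R i).card + p ≤ n * (m - i)) (h2 : (R m).card ≤ p * m) :
    ∃ (K : Type) (_ : Field K) (_ : CharZero K) (P : Fin n → Fin 3 → K),
      finrank K (Fm K d ⊓ ⨅ l, Van (P l) m : Submodule K (MvPolynomial (Fin 3) K)) +
        ∑ i ∈ Finset.range (m + 1), (R i).card ≤ (d + 2).choose 2 := by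
  obtain ⟨S', hS', hc, y, hy⟩ := G.cmp n p m S R (by
    intro q hq
    obtain ⟨j, hj, -⟩ := (hS q).1 hq
    rw [hj]
    positivity) hR (G.mov n p m R hp h1 h2)
  obtain ⟨K, i1, i2, P, hP⟩ := clus n m d rho hrho S hS S' hS' y hy
  rw [hc] at hP
  exact ⟨K, i1, i2, P, hP⟩

include G hrho hS hcard in
/-- the empty side -/
theorem emp (hp : p ≤ n) (h1 : ∀ i, i < m → (lnv S (i + 1)).card + p ≤ n * (m - i))
    (h2 : (lnv S (m + 1)).card ≤ p * m) (h3 : lnv S (m + 2) = ∅) : NonSp n m d := by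
  obtain ⟨K, i1, i2, P, hP⟩ := rows G n m d rho hrho S hS p hp (fun i => lnv S (i + 1))
    (fun i _ => Finset.Subset.refl _) h1 h2
  have h4 := Pool.Agent.Helper80.UN.FIN.card_lnv S (m + 1) h3
  rw [← h4, hcard] at hP
  exact nonSp_of n m d 0 ⟨K, i1, i2, P, by omega⟩ (by
    rw [Nat.cast_zero]
    exact le_max_right _ _)

theorem sum_reg (hp : p ≤ n) :
    ∑ i ∈ Finset.range m, (n * (m - i) - p) + p * m = n * (m + 1).choose 2 := by
  have h1 : ∀ k : ℕ, ∑ i ∈ Finset.range k, (n * (k - i) - p) + p * k =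
      n * (k + 1).choose 2 := by
    intro k
    induction k with
    | zero => simp
    | succ k ih =>
      rw [Finset.sum_range_succ']
      have h2 : ∑ i ∈ Finset.range k, (n * (k + 1 - (i + 1)) - p) =
          ∑ i ∈ Finset.range k, (n * (k - i) - p) := by
        apply Finset.sum_congr rfl
        intro i _
        rw [Nat.add_sub_add_right]
      rw [h2, Nat.sub_zero]
      have h3 : (k + 1 + 1).choose 2 = (k + 1).choose 1 + (k + 1).choose 2 :=
        Nat.choose_succ_succ' _ _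
      have h4 : p ≤ n * (k + 1) := hp.trans (Nat.le_mul_of_pos_right n (Nat.succ_pos k))
      rw [h3, Nat.choose_one_right, Nat.mul_add n (k + 1) _, ← ih]
      have h5 : p * (k + 1) = p * k + p := by ring
      rw [h5]
      omega
  exact h1 m

include G hrho hS in
/-- the regular side -/
theorem reg (hp : p ≤ n) (h1 : ∀ i, i < m → n * (m - i) ≤ (lnv S (i + 1)).card + p)
    (h2 : p * m ≤ (lnv S (m + 1)).card) : NonSp n m d := by
  have hex : ∀ i : ℕ, ∃ R : Finset ℤ, (i ≤ m → R ⊆ lnv S (i + 1)) ∧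
      (i < m → R.card = n * (m - i) - p) ∧ (i = m → R.card = p * m) := by
    intro i
    rcases lt_trichotomy i m with h | h | h
    · have h3 := h1 i h
      obtain ⟨R, hR, hc⟩ := Finset.exists_subset_card_eq
        (show n * (m - i) - p ≤ (lnv S (i + 1)).card by omega)
      exact ⟨R, fun _ => hR, fun _ => hc, fun h' => by omega⟩
    · subst h
      obtain ⟨R, hR, hc⟩ := Finset.exists_subset_card_eq h2
      exact ⟨R, fun _ => hR, fun h' => by omega, fun _ => hc⟩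
    · exact ⟨∅, fun h' => by omega, fun h' => by omega, fun h' => by omega⟩
  choose R hR1 hR2 hR3 using hex
  obtain ⟨K, i1, i2, P, hP⟩ := rows G n m d rho hrho S hS p hp R hR1
    (by
      intro i hi
      rw [hR2 i hi]
      have h4 : 1 ≤ m - i := by omega
      have h5 : n * 1 ≤ n * (m - i) := Nat.mul_le_mul_left n h4
      omega)
    (by rw [hR3 m rfl])
  have hsum : ∑ i ∈ Finset.range (m + 1), (R i).card = n * (m + 1).choose 2 := by
    rw [Finset.sum_range_succ, hR3 m rfl, ← sum_reg n m p hp]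
    congr 1
    apply Finset.sum_congr rfl
    intro i hi
    exact hR2 i (Finset.mem_range.1 hi)
  rw [hsum] at hP
  apply nonSp_of n m d ((d + 2).choose 2 - n * (m + 1).choose 2) ⟨K, i1, i2, P, by omega⟩
  have h3 : n * (m + 1).choose 2 ≤ (d + 2).choose 2 := by omega
  rw [Nat.cast_sub h3]
  push_cast
  exact le_max_left _ _

end

/-- the count of the rows -/
theorem cnt (G : UGoals) (n d s : ℕ) (S : Finset (ℤ × ℤ)) (hn : 10 ≤ n) (hsq : ¬ IsSquare n)
    (hs : 1 ≤ s) (hd : n * s ^ 2 < d ^ 2) (hS : IsT d (3 * √(n : ℝ) - 9) S) :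
    |((lnv S s).card : ℝ) - (√(n : ℝ) * d - n * (s - 1 / 2) + 3 * √(n : ℝ) / 2)| <
      (√(n : ℝ) + 1) / 2 := by
  obtain ⟨k, A, θ, ε, h1, h2⟩ := G.tel n d s S hn hsq hs hd hS
  rw [h2, add_sub_cancel_left]
  exact G.bnd n k A θ ε hn hsq h1

/-- the defects: the rows up to `m` -/
theorem dfc (G : UGoals) (n m d i : ℕ) (S : Finset (ℤ × ℤ)) (hn : 10 ≤ n) (hsq : ¬ IsSquare n)
    (hi : i < m) (hd : n * m ^ 2 < d ^ 2) (hS : IsT d (3 * √(n : ℝ) - 9) S) :
    (((lnv S (i + 1)).card : ℝ) - n * (m - i)) <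
        (√(n : ℝ) * (d + 3 / 2) - n * (m + 1 / 2)) + (√(n : ℝ) + 1) / 2 ∧
      (√(n : ℝ) * (d + 3 / 2) - n * (m + 1 / 2)) - (√(n : ℝ) + 1) / 2 <
        (((lnv S (i + 1)).card : ℝ) - n * (m - i)) := by
  have h1 : n * (i + 1) ^ 2 < d ^ 2 := by
    have h2 : (i + 1) ^ 2 ≤ m ^ 2 := Nat.pow_le_pow_left (by omega) 2
    exact lt_of_le_of_lt (Nat.mul_le_mul_left n h2) hd
  have h3 := cnt G n d (i + 1) S hn hsq (by omega) h1 hS
  rw [abs_lt] at h3
  push_cast at h3
  constructor <;> linarith [h3.1, h3.2]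

section

variable (G : UGoals) (n m d : ℕ) (hn : 10 ≤ n) (hsq : ¬ IsSquare n) (hm : 1 ≤ m)
  (hd1 : n * m ^ 2 < d ^ 2) (hd2 : (d + 3) ^ 2 < n * (m + 1) ^ 2)
  (S : Finset (ℤ × ℤ)) (hS : IsT d (3 * √(n : ℝ) - 9) S) (hcard : S.card = (d + 2).choose 2)

include G hn hsq hm hd1 hd2 hS hcard in
/-- not empty -/
theorem notEmp (h : ¬ NonSp n m d) :
    1 - (((((lnv S (m + 1)).card + m - 1) / m : ℕ) : ℕ) : ℝ) <
      (√(n : ℝ) * (d + 3 / 2) - n * (m + 1 / 2)) + (√(n : ℝ) + 1) / 2 := by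
  by_contra hcon
  apply h
  obtain ⟨e1, e2, -⟩ := G.emo n m d S hn hsq hm hd1 hd2 hS
  set E := (lnv S (m + 1)).card with hE
  set p := (E + m - 1) / m with hp
  have hpE : E ≤ p * m := by
    have h1 := Nat.div_add_mod (E + m - 1) m
    have h2 := Nat.mod_lt (E + m - 1) (show 0 < m by omega)
    rw [← hp] at h1
    rw [mul_comm]
    omega
  have hpn : p ≤ n := by
    have h1 : p ≤ E := by
      rw [hp]
      apply Nat.le_of_lt_succ
      rw [Nat.div_lt_iff_lt_mul (by omega)]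
      have : E.succ * m = E * m + m := by rw [Nat.succ_mul]
      have h2 : E ≤ E * m := Nat.le_mul_of_pos_right E (by omega)
      omega
    omega
  refine emp G n m d _ (Pool.Agent.Helper80.UN.FIN.noTie n d _ hsq rfl) S hS hcard p hpn ?_ hpE
    (Finset.card_eq_zero.1 e1)
  intro i hi
  obtain ⟨h1, -⟩ := dfc G n m d i S hn hsq hi hd1 hS
  have h2 : (((lnv S (i + 1)).card : ℝ) - n * (m - i)) < 1 - p := by linarith
  have h3 : ((lnv S (i + 1)).card + p : ℝ) < n * ((m - i : ℕ) : ℝ) + 1 := by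
    rw [Nat.cast_sub hi.le]
    linarith
  have h4 : (lnv S (i + 1)).card + p < n * (m - i) + 1 := by exact_mod_cast h3
  omega

include G hn hsq hm hd1 hd2 hS in
/-- not regular -/
theorem notReg (h : ¬ NonSp n m d) :
    (√(n : ℝ) * (d + 3 / 2) - n * (m + 1 / 2)) - (√(n : ℝ) + 1) / 2 <
      - ((((lnv S (m + 1)).card / m : ℕ) : ℕ) : ℝ) - 1 := by
  by_contra hcon
  apply h
  obtain ⟨e1, e2, -⟩ := G.emo n m d S hn hsq hm hd1 hd2 hS
  set E := (lnv S (m + 1)).card with hE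
  set p := E / m with hp
  have hpE : p * m ≤ E := Nat.div_mul_le_self E m
  have hpn : p ≤ n := by
    have h1 : p ≤ E := Nat.div_le_self E m
    omega
  refine reg G n m d _ (Pool.Agent.Helper80.UN.FIN.noTie n d _ hsq rfl) S hS p hpn ?_ hpE
  intro i hi
  obtain ⟨-, h1⟩ := dfc G n m d i S hn hsq hi hd1 hS
  have h2 : -(p : ℝ) - 1 < (((lnv S (i + 1)).card : ℝ) - n * (m - i)) := by linarith
  have h3 : (n : ℝ) * ((m - i : ℕ) : ℝ) < (lnv S (i + 1)).card + p + 1 := by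
    rw [Nat.cast_sub hi.le]
    linarith
  have h4 : n * (m - i) < (lnv S (i + 1)).card + p + 1 := by exact_mod_cast h3
  omega

include G hn hsq hm hd1 hd2 in
/-- an undecided degree is critical -/
theorem crit (h : ¬ NonSp n m d) :
    |((Nat.choose (d + 2) 2 : ℝ) - n * (Nat.choose (m + 1) 2 : ℝ))| < (√(n : ℝ) + 1) * m := by
  obtain ⟨S, hS, hcard⟩ := exT d (3 * √(n : ℝ) - 9)
    (Pool.Agent.Helper80.UN.FIN.noTie n d _ hsq rfl)
  obtain ⟨e1, -, -⟩ := G.emo n m d S hn hsq hm hd1 hd2 hS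
  have h1 := notEmp G n m d hn hsq hm hd1 hd2 S hS hcard h
  have h2 := notReg G n m d hn hsq hm hd1 hd2 S hS h
  have htot := Pool.Agent.Helper80.UN.FIN.total n m d S (Finset.card_eq_zero.1 e1) hcard
  set E := (lnv S (m + 1)).card with hE
  have hb := fun i (hi : i < m) => dfc G n m d i S hn hsq hi hd1 hS
  set δ : ℝ := √(n : ℝ) * (d + 3 / 2) - n * (m + 1 / 2) with hδ
  set r : ℝ := √(n : ℝ) with hr
  have hm' : (1 : ℝ) ≤ m := by exact_mod_cast hm
  have hm0 : (Finset.range m).Nonempty := ⟨0, Finset.mem_range.2 (by omega)⟩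
  have hlow : (m : ℝ) * (δ - (r + 1) / 2) <
      ∑ i ∈ Finset.range m, (((lnv S (i + 1)).card : ℝ) - n * (m - i)) := by
    have : ∑ i ∈ Finset.range m, (δ - (r + 1) / 2) <
        ∑ i ∈ Finset.range m, (((lnv S (i + 1)).card : ℝ) - n * (m - i)) :=
      Finset.sum_lt_sum_of_nonempty hm0 fun i hi => (hb i (Finset.mem_range.1 hi)).2
    rwa [Finset.sum_const, Finset.card_range, nsmul_eq_mul] at this
  have hupp : ∑ i ∈ Finset.range m, (((lnv S (i + 1)).card : ℝ) - n * (m - i)) <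
      (m : ℝ) * (δ + (r + 1) / 2) := by
    have : ∑ i ∈ Finset.range m, (((lnv S (i + 1)).card : ℝ) - n * (m - i)) <
        ∑ i ∈ Finset.range m, (δ + (r + 1) / 2) :=
      Finset.sum_lt_sum_of_nonempty hm0 fun i hi => (hb i (Finset.mem_range.1 hi)).1
    rwa [Finset.sum_const, Finset.card_range, nsmul_eq_mul] at this
  -- the two divisions
  have hq1 : (((E + m - 1) / m : ℕ) : ℝ) * m < E + m := by
    have h3 : (E + m - 1) / m * m ≤ E + m - 1 := Nat.div_mul_le_self _ _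
    have h4 : (E + m - 1) / m * m < E + m := by omega
    exact_mod_cast h4
  have hq2 : (E : ℝ) < ((E / m : ℕ) : ℝ) * m + m := by
    have h3 := Nat.div_add_mod E m
    have h4 := Nat.mod_lt E (show 0 < m by omega)
    have h5 : E < E / m * m + m := by rw [mul_comm]; omega
    exact_mod_cast h5
  set p1 : ℝ := (((E + m - 1) / m : ℕ) : ℝ) with hp1
  set p2 : ℝ := ((E / m : ℕ) : ℝ) with hp2
  have h5 : (m : ℝ) * (1 - p1) < m * (δ + (r + 1) / 2) := mul_lt_mul_of_pos_left h1 (by linarith)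
  have h6 : (m : ℝ) * (δ - (r + 1) / 2) < m * (- p2 - 1) := mul_lt_mul_of_pos_left h2 (by linarith)
  rw [abs_lt]
  have htot' : ((Nat.choose (d + 2) 2 : ℝ) - n * (Nat.choose (m + 1) 2 : ℝ)) =
      ∑ i ∈ Finset.range m, (((lnv S (i + 1)).card : ℝ) - n * (m - i)) + (E : ℝ) := htot.symm
  rw [htot']
  constructor <;> nlinarith

end

/-- outside the window -/
theorem out (n m d : ℕ) (hn : 10 ≤ n) (hsq : ¬ IsSquare n) (hm : 1 ≤ m)
    (h : d ^ 2 ≤ n * m ^ 2 ∨ n * (m + 1) ^ 2 ≤ (d + 3) ^ 2) : NonSp n m d := by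
  have hS : ∀ c : ℕ, ∑ _i : Fin n, c = n * c := by
    intro c
    rw [Finset.sum_const, Finset.card_univ, Fintype.card_fin, smul_eq_mul]
  rcases h with h | h
  · have h1 : n * d ^ 2 ≤ (∑ _i : Fin n, m) ^ 2 := by
      rw [hS]
      calc n * d ^ 2 ≤ n * (n * m ^ 2) := Nat.mul_le_mul_left n h
        _ = (n * m) ^ 2 := by ring
    have h2 : 1 ≤ ∑ _i : Fin n, m := by
      rw [hS]
      exact Nat.mul_pos (by omega) hm
    obtain ⟨G', hG0, hG⟩ := nagataC nGoals n d (fun _ => m) hn h1 h2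
    refine ⟨G', hG0, fun P _ hP => ?_⟩
    have h3 := hG P hP
    have h4 := arith1 n d (fun _ => m) hn h1 h2
    rw [hS] at h4
    have h5 : ((d + 2).choose 2 : ℤ) ≤ n * ((m + 1).choose 2 : ℤ) := by exact_mod_cast h4
    have h6 : ((Nat.choose (d + 2) 2 : ℤ) - n * (Nat.choose (m + 1) 2 : ℤ)) ≤ 0 := by linarith
    rw [max_eq_right h6]
    exact_mod_cast h3
  · have hne : n * (m + 1) ^ 2 ≠ (d + 3) ^ 2 := by
      intro he
      apply hsq
      have h1 : (m + 1) ^ 2 ∣ (d + 3) ^ 2 := ⟨n, by rw [← he]; ring⟩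
      have h2 : (m + 1) ∣ (d + 3) := (Nat.pow_dvd_pow_iff (by norm_num)).1 h1
      obtain ⟨k, hk⟩ := h2
      refine ⟨k, ?_⟩
      rw [hk] at he
      have h3 : n * (m + 1) ^ 2 = (k * k) * (m + 1) ^ 2 := by rw [he]; ring
      exact Nat.eq_of_mul_eq_mul_right (by positivity) h3
    have hlt : n * (m + 1) ^ 2 < (d + 3) ^ 2 := lt_of_le_of_ne h hne
    have h3m : 3 * m < d := by
      by_contra hcon
      have h1 : d + 3 ≤ 3 * (m + 1) := by omega
      have h2 : (d + 3) ^ 2 ≤ (3 * (m + 1)) ^ 2 := Nat.pow_le_pow_left h1 2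
      have h3 : (3 * (m + 1)) ^ 2 = 9 * (m + 1) ^ 2 := by ring
      have h4 : 10 * (m + 1) ^ 2 ≤ n * (m + 1) ^ 2 := Nat.mul_le_mul_right _ hn
      have h5 : 0 < (m + 1) ^ 2 := by positivity
      omega
    obtain ⟨G', hG0, hG⟩ := final2 nGoals n d (fun _ => m) (fun _ => h3m) (by
      intro _
      rw [hS]
      calc (m + 1) * (n * (m + 1)) = n * (m + 1) ^ 2 := by ring
        _ < (d + 3) ^ 2 := hlt)
    refine ⟨G', hG0, fun P hP0 hP => ?_⟩
    have h3 := hG P hP0 hP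
    have h4 : ∑ _i : Fin n, ((m + 1).choose 2 : ℤ) = n * ((m + 1).choose 2 : ℤ) := by
      rw [Finset.sum_const, Finset.card_univ, Fintype.card_fin, nsmul_eq_mul]
    rw [h4] at h3
    rw [h3, eq_comm]
    apply max_eq_left
    rw [← h3]
    positivity

/-- THE THEOREM -/
theorem un (G : UGoals) (n m : ℕ) (hn : 10 ≤ n) : ∃ d₀ : ℕ, ∀ d : ℕ,
    (d ≠ d₀ ∨ IsSquare n ∨ d ^ 2 ≤ n * m ^ 2 ∨ n * (m + 1) ^ 2 ≤ (d + 3) ^ 2 ∨
      (√(n : ℝ) + 1) * m ≤
        |((Nat.choose (d + 2) 2 : ℝ) - n * (Nat.choose (m + 1) 2 : ℝ))|) → NonSp n m d := by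
  by_cases hsq : IsSquare n
  · exact ⟨0, fun d _ => G.sqc n m d hn hsq⟩
  rcases Nat.eq_zero_or_pos m with hm | hm
  · subst hm
    exact ⟨0, fun d _ => nonSp_zero n d⟩
  -- the undecided degrees are in the window
  have hwin : ∀ d, ¬ NonSp n m d → n * m ^ 2 < d ^ 2 ∧ (d + 3) ^ 2 < n * (m + 1) ^ 2 := by
    intro d hd
    constructor
    · by_contra hcon
      exact hd (out n m d hn hsq hm (Or.inl (by omega)))
    · by_contra hcon
      exact hd (out n m d hn hsq hm (Or.inr (by omega)))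
  have hcrit : ∀ d, (√(n : ℝ) + 1) * m ≤
      |((Nat.choose (d + 2) 2 : ℝ) - n * (Nat.choose (m + 1) 2 : ℝ))| → NonSp n m d := by
    intro d hd
    by_contra hcon
    obtain ⟨w1, w2⟩ := hwin d hcon
    exact absurd (crit G n m d hn hsq hm w1 w2 hcon) (not_lt.2 hd)
  -- two undecided degrees
  have htwo : ∀ d d', d < d' → ¬ NonSp n m d → ¬ NonSp n m d' → False := by
    intro d d' hlt hd hd'
    obtain ⟨w1, w2⟩ := hwin d hd
    obtain ⟨w1', w2'⟩ := hwin d' hd'
    obtain ⟨S, hS, hcard⟩ := exT d (3 * √(n : ℝ) - 9)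
      (Pool.Agent.Helper80.UN.FIN.noTie n d _ hsq rfl)
    obtain ⟨S', hS', hcard'⟩ := exT d' (3 * √(n : ℝ) - 9)
      (Pool.Agent.Helper80.UN.FIN.noTie n d' _ hsq rfl)
    obtain ⟨-, -, hmono⟩ := G.emo n m d S hn hsq hm w1 w2 hS
    have hEE := hmono d' S' hlt.le w2' hS'
    have h1 := notEmp G n m d hn hsq hm w1 w2 S hS hcard hd
    have h2 := notReg G n m d' hn hsq hm w1' w2' S' hS' hd'
    have h3 : ((lnv S (m + 1)).card + m - 1) / m ≤ (lnv S' (m + 1)).card / m + 1 := by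
      have h4 : ((lnv S (m + 1)).card + m - 1) / m ≤ ((lnv S' (m + 1)).card + m) / m :=
        Nat.div_le_div_right (by omega)
      rwa [Nat.add_div_right _ (show 0 < m by omega)] at h4
    have h4 : ((((lnv S (m + 1)).card + m - 1) / m : ℕ) : ℝ) ≤
        (((lnv S' (m + 1)).card / m : ℕ) : ℝ) + 1 := by exact_mod_cast h3
    have h5 : (d : ℝ) + 1 ≤ d' := by exact_mod_cast hlt
    have h6 : √(n : ℝ) * (d + 1) ≤ √(n : ℝ) * d' := mul_le_mul_of_nonneg_left h5 (Real.sqrt_nonneg _)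
    linarith
  by_cases hall : ∀ d, NonSp n m d
  · exact ⟨0, fun d _ => hall d⟩
  · push Not at hall
    obtain ⟨d₀, hd₀⟩ := hall
    refine ⟨d₀, fun d hd => ?_⟩
    rcases hd with hd | hd | hd | hd | hd
    · by_contra hcon
      rcases lt_or_gt_of_ne hd with h | h
      · exact htwo d d₀ h hcon hd₀
      · exact htwo d₀ d h hd₀ hcon
    · exact absurd hd hsq
    · exact out n m d hn hsq hm (Or.inl hd)
    · exact out n m d hn hsq hm (Or.inr hd)
    · exact hcrit d hd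

end Pool.Agent.Helper90.UN
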