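import Pool.Agent.Helper90.UN.Goals
import Pool.Agent.Helper90.Nag.BLKX
import Pool.Agent.Helper97.Tate.Klev

/-!
# Project UN, BLKY: independence of the columns, points with rational ordinates
-/

set_option autoImplicit false

noncomputable section

namespace Pool.Agent.Helper90.UN.BLKY

open Pool.Agent.Helper97.Nag

open Pool.Agent.Helper97.Tate (OO KK qe)

open Pool.Agent.Helper90.Nag.BLKX (coeff_ENTX level)

theorem t (hD : S_DETR) (hE : S_ENTX) : S_BLKY := by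
  classical
  intro F _ _ d b M y rho x hgen x' hx' C hC hind a ha
  haveI : CharZero (KK F) := Pool.Agent.Helper97.Tate.charZero_KK F
  obtain ⟨f, hf, hfe⟩ := hE F d x hgen
  choose N₀ hlead hall using fun c : {c // c ∈ C} => level d rho c.1.1 c.1.2 (hC c.1 c.2)
  set bw : ℤ →+ ℝ := (AddMonoidHom.mulLeft (-rho / 9)).comp (Int.castAddHom ℝ) with hbw
  have hbwa : ∀ n : ℤ, bw n = -rho / 9 * (n : ℝ) := fun n => rfl
  have hcf : ∀ (u : ℚ) (N : ℕ) (s : PowerSeries (AddMonoidAlgebra ℚ ℤ)) (g : ℤ),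
      (PowerSeries.coeff N (algebraMap ℚ (PowerSeries (AddMonoidAlgebra ℚ ℤ)) u * s)).coeff g =
        u * (PowerSeries.coeff N s).coeff g := by
    intro u N s g
    rw [← Algebra.smul_def, PowerSeries.coeff_smul, AddMonoidAlgebra.coeff_smul,
      Finsupp.smul_apply, smul_eq_mul]
  have hfu : ∀ u : ℚ, f (algebraMap ℚ (PowerSeries (AddMonoidAlgebra ℚ ℤ)) u) = (u : KK F) := by
    intro u
    have h1 : f.comp (algebraMap ℚ (PowerSeries (AddMonoidAlgebra ℚ ℤ))) = Rat.castHom (KK F) :=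
      Subsingleton.elim _ _
    exact congrArg (fun h : ℚ →+* KK F => h u) h1
  have key := hD ℤ {ρ : Σ l : Fin b, Fin (M l) × Fin (M l) // (ρ.2.1 : ℕ) + (ρ.2.2 : ℕ) < M ρ.1}
    {c // c ∈ C} Unit bw (fun _ => ()) (fun _ => ())
    (fun ρ c => algebraMap ℚ (PowerSeries (AddMonoidAlgebra ℚ ℤ)) (y ρ.1.1 ^ c.1.1) *
      ENTX d (((ρ.1.1 : ℕ) : ℚ) + 1) (ρ.1.2.1 : ℕ) (ρ.1.2.2 : ℕ) c.1.1
      (c.1.2 % ((3 * (d - 3 * c.1.1) : ℕ) : ℤ)).toNat)
    (fun c => (N₀ c : ℝ) + -rho / 9 * (c.1.2 : ℝ)) (fun _ => 0)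
    (fun c => N₀ c) (fun c => c.1.2)
    (fun ρ c => y ρ.1.1 ^ c.1.1 * (((Ring.choose c.1.2 (ρ.1.2.1 : ℕ) : ℤ) : ℚ) *
      ((c.1.1.choose (ρ.1.2.2 : ℕ) : ℕ) : ℚ) * (((ρ.1.1 : ℕ) : ℚ) + 1) ^ c.1.2))
    ?_ ?_ ?_ ?_ (KK F) f hf (fun c => a c.1) ?_
  · intro c hc
    exact congrFun key ⟨c, hc⟩
  · -- weights
    rintro ρ c N g hne
    rw [hcf, coeff_ENTX] at hne
    have h1 : (PowerSeries.coeff N (FX d c.1.1
        (c.1.2 % ((3 * (d - 3 * c.1.1) : ℕ) : ℤ)).toNat)).coeff g ≠ 0 := by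
      intro h0
      apply hne
      rw [h0, zero_mul, zero_mul, zero_mul, mul_zero]
    obtain ⟨A, B⟩ := hall c N g h1
    simp only [hbwa, add_zero]
    exact ⟨A, fun h => ⟨trivial, B h⟩⟩
  · intro c
    simp only [hbwa, add_zero]
  · rintro ρ c -
    rw [hcf, coeff_ENTX, hlead c, one_mul]
  · -- independence of the leading coefficients
    intro e he
    set φ : {c // c ∈ C} → ℤ × ℤ := fun c => ((c.1.1 : ℤ), c.1.2) with hφ
    have hinj : Function.Injective φ := by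
      rintro ⟨⟨j, n⟩, hc⟩ ⟨⟨j', n'⟩, hc'⟩ h
      simp only [hφ, Prod.mk.injEq] at h
      obtain ⟨h1, h2⟩ := h
      have h3 : j = j' := by exact_mod_cast h1
      subst h3
      subst h2
      rfl
    have himg : (C.image fun c => ((c.1 : ℤ), c.2)) = Finset.univ.image φ := by
      ext q
      simp only [Finset.mem_image, Finset.mem_univ, true_and, hφ]
      constructor
      · rintro ⟨c, hc, rfl⟩
        exact ⟨⟨c, hc⟩, rfl⟩
      · rintro ⟨c, rfl⟩
        exact ⟨c.1, c.2, rfl⟩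
    have hz := hind (Function.extend φ e 0) (by
      intro l α β hαβ
      rw [himg, Finset.sum_image fun _ _ _ _ h => hinj h]
      have h6 := he ⟨⟨l, (⟨α, by omega⟩, ⟨β, by omega⟩)⟩, hαβ⟩
      simp only [Finset.filter_true] at h6
      rw [← h6]
      refine Finset.sum_congr rfl fun c _ => ?_
      rw [hinj.extend_apply]
      have h8 : (Ring.choose (φ c).1 β : ℤ) = ((c.1.1.choose β : ℕ) : ℤ) :=
        Ring.choose_natCast c.1.1 β
      have h9 : y l ^ (φ c).1 = y l ^ c.1.1 := zpow_natCast (y l) c.1.1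
      rw [h8, h9]
      simp only [hφ]
      push_cast
      ring)
    funext c
    have hc0 := hz (φ c) (by
      rw [himg]
      exact Finset.mem_image_of_mem _ (Finset.mem_univ _))
    rw [hinj.extend_apply] at hc0
    exact hc0
  · -- the relations
    intro ρ
    rw [← ha ρ.1.1 (ρ.1.2.1 : ℕ) (ρ.1.2.2 : ℕ) ρ.2, ← Finset.sum_coe_sort C]
    refine Finset.sum_congr rfl fun c _ => ?_
    rw [map_mul, hfu, hfe (((ρ.1.1 : ℕ) : ℚ) + 1) (x' ρ.1.1) (by positivity) (by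
      rw [hx' ρ.1.1]
      push_cast
      rfl), mul_comm, Rat.cast_pow, mul_assoc]

end Pool.Agent.Helper90.UN.BLKY
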