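import Pool.Agent.Helper97.Nag.Defs1

/-!
PROJECT UN (MP_d3128a_ag): for `n ≥ 10` general points and every `m` the system `L(d; m^n)` is
non-special for all the degrees `d` except at most one. Definitions.
-/

set_option autoImplicit false

noncomputable section

namespace Pool.Agent.Helper90.UN

open Pool.Agent.Helper97.Nag

/-- independence of the points of a finite set of `ℤ × ℤ` for the conditions of multiplicity `M l`
at the `b` points `(x, y) = (l + 1, y l)` (the lattice point `(j, n)` is the monomial `x^n y^j`) -/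
def IndepY {b : ℕ} (M : Fin b → ℕ) (y : Fin b → ℚ) (S : Finset (ℤ × ℤ)) : Prop :=
  ∀ a : ℤ × ℤ → ℚ,
    (∀ (l : Fin b) (α β : ℕ), α + β < M l →
      ∑ q ∈ S, a q * (y l ^ q.1 * (((Ring.choose q.1 β : ℤ) : ℚ) * ((Ring.choose q.2 α : ℤ) : ℚ) *
        (((l : ℕ) : ℚ) + 1) ^ q.2)) = 0) →
    ∀ q ∈ S, a q = 0

/-- `S` is the set of the lattice points of the triangle -/
def IsT (d : ℕ) (rho : ℝ) (S : Finset (ℤ × ℤ)) : Prop :=
  ∀ q, q ∈ S ↔ ∃ j : ℕ, q.1 = j ∧ InT d rho j q.2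

/-- the compressed problem with `p` movers: rows `R 0, ..., R m`, the static points `(l + 1, 0)`, `p ≤ l`,
the movers `(l + 1, 1)`, `l < p`, all of multiplicity `m`; it has only the zero solution -/
def CompTriv (b p m : ℕ) (R : ℕ → Finset ℤ) : Prop :=
  ∀ a : ℕ → ℤ → ℚ,
    (∀ l : Fin b, p ≤ (l : ℕ) → ∀ α β : ℕ, α + β < m →
      ∑ X ∈ R β, a β X * (((Ring.choose X α : ℤ) : ℚ) * (((l : ℕ) : ℚ) + 1) ^ X) = 0) →
    (∀ l : Fin b, (l : ℕ) < p → ∀ α β : ℕ, α + β < m →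
      ∑ i ∈ Finset.range (m + 1), (i.choose β : ℚ) *
        ∑ X ∈ R i, a i X * (((Ring.choose X α : ℤ) : ℚ) * (((l : ℕ) : ℚ) + 1) ^ X) = 0) →
    ∀ i, i ≤ m → ∀ X ∈ R i, a i X = 0

/-- the deviation of the count from its main term, `r = √n` -/
def WW (r : ℝ) (k : ℕ) (A θ ε : ℝ) : ℝ :=
  A + 9 / 2 * ((k - r / 3 + ε) * (1 - (k - r / 3 + ε)) - ε * (1 - ε)) - θ +
    ∑ i ∈ Finset.range k, Int.fract (-(3 * r) * (ε + i)) -
    ∑ i ∈ Finset.range (k - 1), Int.fract (-(3 * r) * (ε + i) - 9 * ε)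

/-- the data of the deviation -/
def IsW (r : ℝ) (k : ℕ) (A θ ε : ℝ) : Prop :=
  0 < ε ∧ ε < 1 ∧ (k : ℝ) - 1 < r / 3 - ε ∧ r / 3 - ε ≤ k ∧ 0 ≤ θ ∧ θ < 1 ∧
    (A = 0 ∨ (A = 1 ∧ r / 3 - ε = k)) ∧
    (∀ i : ℕ, i < k → 0 < Int.fract (-(3 * r) * (ε + i))) ∧
    (∀ i : ℕ, i < k - 1 → 0 < Int.fract (-(3 * r) * (ε + i) - 9 * ε))

/-- the dimension of `L(d; m^n)` at general points is the expected one -/
def NonSp (n m d : ℕ) : Prop :=
  ∃ G : MvPolynomial (Fin n × Fin 3) ℂ, G ≠ 0 ∧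
    ∀ P : Fin n → Fin 3 → ℂ, (∀ i, P i ≠ 0) →
      MvPolynomial.eval (fun ij : Fin n × Fin 3 => P ij.1 ij.2) G ≠ 0 →
      (Module.finrank ℂ
        (↥(MvPolynomial.homogeneousSubmodule (Fin 3) ℂ d ⊓
          ⨅ i : Fin n, Submodule.restrictScalars ℂ
            ((Ideal.span {g : MvPolynomial (Fin 3) ℂ |
                g.IsHomogeneous 1 ∧ MvPolynomial.eval (P i) g = 0}) ^ m
              : Ideal (MvPolynomial (Fin 3) ℂ)))) : ℤ) =
        max ((Nat.choose (d + 2) 2 : ℤ) - n * (Nat.choose (m + 1) 2 : ℤ)) 0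

end Pool.Agent.Helper90.UN
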