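import Pool.Agent.Helper90.UN.BLKY
import Pool.Agent.Helper97.Nag.All1

/-!
PROJECT UN: the main inequality.
-/

set_option autoImplicit false

noncomputable section

namespace Pool.Agent.Helper90.UN

open Module Pool.Agent.Helper97 Pool.Agent.Helper97.Nag

open Pool.Agent.Helper97.Tate (OO KK SS cf IsTh qe Th iO ser evx evK th Van Fm tst nP Idx Indep IsCub)

theorem all_BLKY : S_BLKY := BLKY.t all_DETR all_ENTX

/-- THE MAIN INEQUALITY -/
theorem main2 (d b : ℕ) (M : Fin b → ℕ) (y : Fin b → ℚ) (rho : ℝ)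
    (C : Finset (ℕ × ℤ)) (hC : ∀ c ∈ C, InT d rho c.1 c.2)
    (hI : IndepY M y (C.image fun c => ((c.1 : ℤ), c.2))) :
    ∃ (K : Type) (_ : Field K) (_ : CharZero K) (P : Fin b → Fin 3 → K),
      finrank K (Fm K d ⊓ ⨅ l, Van (P l) (M l) : Submodule K (MvPolynomial (Fin 3) K)) + C.card ≤
        ∑ j ∈ Finset.range (d / 3 + 1), nu1 d j := by
  have G := nGoals
  obtain ⟨F, _, _, x, hx⟩ := G.gen
  obtain ⟨g, hg⟩ := G.crv F
  have : CharZero (KK F) := Tate.charZero_KK F
  have : Infinite (KK F) := Infinite.of_injective _ (Nat.cast_injective (R := KK F))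
  have hne : ∀ l : Fin b, (((l : ℕ) : F) + 1) * (x : F) ≠ 0 := by
    intro l
    apply mul_ne_zero _ (Units.ne_zero x)
    exact_mod_cast Nat.succ_ne_zero (l : ℕ)
  let x' : Fin b → Fˣ := fun l => Units.mk0 _ (hne l)
  have hx' : ∀ l, ((x' l : Fˣ) : F) = (((l : ℕ) : F) + 1) * (x : F) := fun l => rfl
  have hLH := G.lhy F g hg d b x'
  have hu : ∀ l, PowerSeries.constantCoeff (MvPolynomial.aeval (phk 3 (x' l))
      (MvPolynomial.pderiv 0 (crvK g))) ≠ 0 := fun l => (G.cuv F 3 g le_rfl hg (x' l)).2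
  have hg0 : crvK g ≠ 0 := by
    intro h0
    have := (G.cuv F 3 g le_rfl hg x).2
    rw [h0, map_zero, map_zero, map_zero] at this
    exact this rfl
  obtain ⟨P', hP'⟩ := G.mik (KK F) (Fin 0) (crvK g) (fun i : Fin 0 => (i.elim0 : Fin 3 → KK F))
    (fun i => i.elim0) d 3 b M (nu1 d) (fun l => phk 3 (x' l))
    (fun l => (MvPolynomial.aeval (phk 3 (x' l)) (MvPolynomial.pderiv 0 (crvK g)))⁻¹ *
      PowerSeries.C ((y l : ℚ) : KK F))
    (fun _ => 1) (fun _ => 1) (fun l => ((y l : ℚ) : KK F))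
    (fun l j ρ => SEX d (x' l) j ρ) (by norm_num) hg0
    (hg.1.map _) (fun i => i.elim0) (fun l => (G.cuv F 3 g le_rfl hg (x' l)).1)
    (by
      intro l
      rw [← mul_assoc, PowerSeries.mul_inv_cancel _ (hu l), one_mul, mul_one])
    (by
      intro l
      rw [map_one]
      exact one_ne_zero)
    hLH
  have hPe : (Fm (KK F) d ⊓ (⨅ i : Fin 0, Van (i.elim0 : Fin 3 → KK F) (i.elim0)) ⊓
      ⨅ l, Van (P' l) (M l) : Submodule (KK F) (MvPolynomial (Fin 3) (KK F))) =
      Fm (KK F) d ⊓ ⨅ l, Van (P' l) (M l) := by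
    rw [iInf_of_empty, inf_top_eq]
  refine ⟨KK F, inferInstance, inferInstance, P', ?_⟩
  -- the columns
  set φ : ℕ × ℤ → ℕ × ℕ := fun c => (c.1, (c.2 % ((3 * (d - 3 * c.1) : ℕ) : ℤ)).toNat) with hφ
  have hinj : Set.InjOn φ (C : Set (ℕ × ℤ)) := by
    rintro ⟨j, n⟩ hc ⟨j', n'⟩ hc' h
    simp only [hφ, Prod.mk.injEq] at h
    obtain ⟨rfl, h2⟩ := h
    have h3 : n = n' := colT_inj (hC _ hc) (hC _ hc') h2
    rw [h3]
  have hcardC : (C.image φ).card = C.card := Finset.card_image_of_injOn hinj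
  have hdim := G.dim (KK F) b (d / 3 + 1) M (nu1 d) (fun l => ((y l : ℚ) : KK F))
    (fun l j ρ => SEX d (x' l) j ρ) (C.image φ)
    (by
      intro c hc
      obtain ⟨⟨j, n⟩, hc1, rfl⟩ := Finset.mem_image.1 hc
      have hB := hC _ hc1
      have hj := inT_le hB
      simp only [hφ]
      simp only at hj
      constructor
      · omega
      · rcases hB with ⟨h1, -⟩ | ⟨h1, h3⟩
        · simp only at h1
          have hne : 3 * j ≠ d := by omega
          rw [nu1, if_neg hne]
          have hkz : (0 : ℤ) < ((3 * (d - 3 * j) : ℕ) : ℤ) := by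
            have : 0 < 3 * (d - 3 * j) := by omega
            exact_mod_cast this
          have p1 := Int.emod_nonneg n hkz.ne'
          have p2 := Int.emod_lt_of_pos n hkz
          omega
        · simp only at h1 h3
          rw [nu1, if_pos h1, h3]
          simp)
    (by
      intro a ha
      have hB := all_BLKY F d b M y rho x hx x' hx' C hC hI
        (fun c => a (φ c)) (by
          intro l α β hαβ
          have h1 := ha l α β hαβ
          rw [Finset.sum_image hinj] at h1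
          exact h1)
      intro c hc
      obtain ⟨c', hc', rfl⟩ := Finset.mem_image.1 hc
      exact hB c' hc')
  rw [hcardC] at hdim
  have hP2 : finrank (KK F) (Fm (KK F) d ⊓ ⨅ l, Van (P' l) (M l) :
      Submodule (KK F) (MvPolynomial (Fin 3) (KK F))) ≤
      finrank (KK F) (KerV M (d / 3 + 1) (nu1 d) (fun l => ((y l : ℚ) : KK F))
        (fun l j ρ => SEX d (x' l) j ρ)) := by
    rw [← hPe]
    exact hP'
  exact (Nat.add_le_add_right hP2 _).trans hdim

end Pool.Agent.Helper90.UN
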